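import Mathlib

open Finset

namespace Pool.Agent.Results.MP_10d431_nt.TenthRoots

variable {p : ℕ} [hp : Fact p.Prime]

/-- Elements of `ZMod p` with quadratic character `δ`. -/
def Q (p : ℕ) [Fact p.Prime] (δ : ℤ) : Finset (ZMod p) :=
  univ.filter (fun a => quadraticChar (ZMod p) a = δ)

/-- The product of `x - e(a/p)` over `a` with quadratic character `δ`. -/
noncomputable def F (p : ℕ) [Fact p.Prime] (δ : ℤ) (x : ℂ) : ℂ :=
  ∏ a ∈ Q p δ, (x - ZMod.stdAddChar a)

theorem mem_Q {δ : ℤ} {a : ZMod p} : a ∈ Q p δ ↔ quadraticChar (ZMod p) a = δ := by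
  simp [Q]

theorem ne_zero_of_mem {δ : ℤ} (hδ : δ ≠ 0) {a : ZMod p} (h : a ∈ Q p δ) : a ≠ 0 := by
  rintro rfl
  rw [mem_Q, quadraticChar_zero] at h
  exact hδ h.symm

theorem prod_mul (c : ZMod p) (hc : c ≠ 0) (δ : ℤ) (f : ZMod p → ℂ) :
    ∏ a ∈ Q p δ, f (c * a) = ∏ a ∈ Q p (quadraticChar (ZMod p) c * δ), f a := by
  have hcc := quadraticChar_sq_one hc
  refine Finset.prod_nbij' (fun a => c * a) (fun a => c⁻¹ * a) ?_ ?_ ?_ ?_ ?_
  · intro a ha
    rw [mem_Q] at ha ⊢
    rw [map_mul, ha]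
  · intro a ha
    rw [mem_Q] at ha ⊢
    have : quadraticChar (ZMod p) (c * (c⁻¹ * a)) = quadraticChar (ZMod p) c * δ := by
      rw [mul_inv_cancel_left₀ hc, ha]
    rw [map_mul] at this
    have h2 : quadraticChar (ZMod p) c * (quadraticChar (ZMod p) c * quadraticChar (ZMod p) (c⁻¹ * a))
        = quadraticChar (ZMod p) c * (quadraticChar (ZMod p) c * δ) := by rw [this]
    rw [← mul_assoc, ← mul_assoc, ← sq, hcc, one_mul, one_mul] at h2
    exact h2
  · intro a _
    exact inv_mul_cancel_left₀ hc a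
  · intro a _
    exact mul_inv_cancel_left₀ hc a
  · intro a _
    rfl

theorem e_two (a : ZMod p) : ZMod.stdAddChar (2 * a) = (ZMod.stdAddChar a : ℂ) ^ 2 := by
  rw [two_mul, AddChar.map_add_eq_mul, sq]

theorem e_nsmul (n : ℕ) (a : ZMod p) :
    ZMod.stdAddChar ((n : ZMod p) * a) = (ZMod.stdAddChar a : ℂ) ^ n := by
  rw [← nsmul_eq_mul, AddChar.map_nsmul_eq_pow]

theorem e_neg (a : ZMod p) :
    ZMod.stdAddChar (-a) = (starRingEnd ℂ) (ZMod.stdAddChar a : ℂ) := by
  rw [AddChar.map_neg_eq_conj]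

theorem prod_all (f : ZMod p → ℂ) : ∏ a, f a = f 0 * (∏ a ∈ Q p 1, f a) * ∏ a ∈ Q p (-1), f a := by
  rw [← Finset.prod_filter_mul_prod_filter_not univ (fun a => quadraticChar (ZMod p) a = 1)]
  have h : (univ.filter (fun a : ZMod p => ¬ quadraticChar (ZMod p) a = 1)) = insert 0 (Q p (-1)) := by
    ext a
    simp only [mem_filter, mem_univ, true_and, mem_insert, mem_Q]
    by_cases ha : a = 0
    · subst ha; simp
    · rcases quadraticChar_dichotomy ha with h | h <;> simp [h, ha]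
  rw [h, Finset.prod_insert]
  · change (∏ a ∈ Q p 1, f a) * _ = _
    ring
  · intro h0
    exact ne_zero_of_mem (by norm_num) h0 rfl

theorem prod_univ (x : ℂ) : ∏ a : ZMod p, (x - ZMod.stdAddChar a) = x ^ p - 1 := by
  have hpos : 0 < p := hp.out.pos
  have hinj := ZMod.injective_stdAddChar (N := p)
  have hprim : IsPrimitiveRoot (Complex.exp (2 * Real.pi * Complex.I / p)) p :=
    Complex.isPrimitiveRoot_exp p hpos.ne'
  have h1 : (univ.image (fun a : ZMod p => (ZMod.stdAddChar a : ℂ))) = Polynomial.nthRootsFinset p (1:ℂ) := by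
    apply Finset.eq_of_subset_of_card_le
    · intro z hz
      rw [mem_image] at hz
      obtain ⟨a, _, rfl⟩ := hz
      rw [Polynomial.mem_nthRootsFinset hpos, ← e_nsmul]
      simp
    · rw [Finset.card_image_of_injective _ hinj]
      rw [Finset.card_univ, ZMod.card, hprim.card_nthRootsFinset]
  have h2 := Polynomial.X_pow_sub_one_eq_prod hpos hprim
  have h3 := congrArg (Polynomial.eval x) h2
  rw [← h1, Polynomial.eval_prod, Finset.prod_image (by intro a _ b _ h; exact hinj h)] at h3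
  simp at h3
  rw [h3]


theorem norm_Q_two (h2 : (2 : ZMod p) ≠ 0) (hχ : quadraticChar (ZMod p) 2 = -1) (x : ℂ) :
    ‖F p 1 x‖ * ‖F p 1 (-x)‖ = ‖F p (-1) (x ^ 2)‖ := by
  have h := prod_mul (p := p) 2 h2 1 (fun a => x ^ 2 - (ZMod.stdAddChar a : ℂ))
  rw [hχ, mul_one] at h
  unfold F
  rw [← h, norm_prod, norm_prod, norm_prod, ← Finset.prod_mul_distrib]
  apply Finset.prod_congr rfl
  intro a _
  rw [← norm_mul, e_two, ← norm_neg]
  congr 1
  ring

theorem norm_conj (h1 : quadraticChar (ZMod p) (-1) = 1) (δ : ℤ) (x : ℂ) :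
    ‖F p δ ((starRingEnd ℂ) x)‖ = ‖F p δ x‖ := by
  have h := prod_mul (p := p) (-1) (by simp) δ (fun a => x - (ZMod.stdAddChar a : ℂ))
  rw [h1, one_mul] at h
  unfold F
  rw [← h, norm_prod, norm_prod]
  apply Finset.prod_congr rfl
  intro a _
  rw [neg_one_mul, e_neg, ← RCLike.norm_conj (_ - _), map_sub, Complex.conj_conj]

theorem F_mul (x : ℂ) : (x - 1) * F p 1 x * F p (-1) x = x ^ p - 1 := by
  rw [← prod_univ, prod_all]
  unfold F
  simp

theorem prod_five (η : ℂ) (h5 : η ^ 5 = 1) (hs : 1 + η + η ^ 2 + η ^ 3 + η ^ 4 = 0) (y : ℂ) :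
    (1 - y) * (η - y) * (η ^ 2 - y) * (η ^ 3 - y) * (η ^ 4 - y) = 1 - y ^ 5 := by
  linear_combination (η ^ 5 + 1) * h5 +
    (-y * η ^ 6 + y ^ 2 * η ^ 3 * (1 + η ^ 2) - y ^ 3 * η * (1 + η ^ 2) + y ^ 4) * hs


theorem F_one_ne_zero : F p (-1) 1 ≠ 0 := by
  unfold F
  rw [Finset.prod_ne_zero_iff]
  intro a ha h
  have h0 : (ZMod.stdAddChar a : ℂ) = ZMod.stdAddChar (0 : ZMod p) := by
    rw [AddChar.map_zero_eq_one]
    exact (sub_eq_zero.mp h).symm
  exact ne_zero_of_mem (by norm_num) ha (ZMod.injective_stdAddChar h0)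

theorem prod_powers (h5 : (5 : ZMod p) ≠ 0) (hχ : quadraticChar (ZMod p) 5 = 1) (η : ℂ)
    (he : η ^ 5 = 1) (hs : 1 + η + η ^ 2 + η ^ 3 + η ^ 4 = 0) :
    F p (-1) η * F p (-1) (η ^ 2) * F p (-1) (η ^ 3) * F p (-1) (η ^ 4) = 1 := by
  have h := prod_mul (p := p) 5 h5 (-1) (fun a => 1 - (ZMod.stdAddChar a : ℂ))
  rw [hχ, one_mul] at h
  have h' : F p (-1) 1 * F p (-1) η * F p (-1) (η ^ 2) * F p (-1) (η ^ 3) * F p (-1) (η ^ 4)
      = F p (-1) 1 := by
    have h2 : F p (-1) 1 = ∏ a ∈ Q p (-1), (1 - (ZMod.stdAddChar a : ℂ)) := rfl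
    have h3 : ∏ a ∈ Q p (-1), (1 - (ZMod.stdAddChar (5 * a) : ℂ)) =
        F p (-1) 1 * F p (-1) η * F p (-1) (η ^ 2) * F p (-1) (η ^ 3) * F p (-1) (η ^ 4) := by
      unfold F
      rw [← Finset.prod_mul_distrib, ← Finset.prod_mul_distrib, ← Finset.prod_mul_distrib,
        ← Finset.prod_mul_distrib]
      apply Finset.prod_congr rfl
      intro a _
      have := e_nsmul 5 a
      push_cast at this
      rw [this, prod_five η he hs]
    rw [← h3, h, h2]
  have h3 := F_one_ne_zero (p := p)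
  have h4 : F p (-1) 1 * (F p (-1) η * F p (-1) (η ^ 2) * F p (-1) (η ^ 3) * F p (-1) (η ^ 4)) =
      F p (-1) 1 * 1 := by
    rw [mul_one]; nth_rewrite 2 [← h']; ring
  exact mul_left_cancel₀ h3 h4

/-- The key modulus statement. -/
theorem norm_F_neg (hp5 : p % 5 = 1 ∨ p % 5 = 4) (h2 : (2 : ZMod p) ≠ 0) (h5 : (5 : ZMod p) ≠ 0)
    (hχ2 : quadraticChar (ZMod p) 2 = -1) (hχ5 : quadraticChar (ZMod p) 5 = 1)
    (hχ1 : quadraticChar (ZMod p) (-1) = 1) (η : ℂ) (he : η ^ 5 = 1) (hne : η ≠ 1) :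
    ‖F p 1 (-η)‖ = 1 := by
  have hs : 1 + η + η ^ 2 + η ^ 3 + η ^ 4 = 0 := by
    have : (η - 1) * (1 + η + η ^ 2 + η ^ 3 + η ^ 4) = 0 := by linear_combination he
    rcases mul_eq_zero.mp this with h | h
    · exact absurd (sub_eq_zero.mp h) hne
    · exact h
  have hnorm : ‖η‖ = 1 := by
    have : ‖η‖ ^ 5 = 1 := by rw [← norm_pow, he, norm_one]
    exact (pow_eq_one_iff_of_nonneg (norm_nonneg _) (by norm_num)).mp this
  have hη0 : η ≠ 0 := by rintro rfl; simp at hnorm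
  have hconj : (starRingEnd ℂ) η = η ^ 4 := by
    have h1 : η * (starRingEnd ℂ) η = 1 := by
      rw [Complex.mul_conj, Complex.normSq_eq_norm_sq, hnorm]; norm_num
    have h2 : η * η ^ 4 = 1 := by rw [← he]; ring
    exact mul_left_cancel₀ hη0 (h1.trans h2.symm)
  have hconj2 : (starRingEnd ℂ) (η ^ 2) = η ^ 3 := by
    rw [map_pow, hconj]
    calc (η ^ 4) ^ 2 = η ^ 5 * η ^ 3 := by ring
      _ = η ^ 3 := by rw [he, one_mul]
  have n4 : ‖F p (-1) (η ^ 4)‖ = ‖F p (-1) η‖ := by rw [← hconj, norm_conj hχ1]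
  have n3 : ‖F p (-1) (η ^ 3)‖ = ‖F p (-1) (η ^ 2)‖ := by rw [← hconj2, norm_conj hχ1]
  have hprod := congrArg norm (prod_powers h5 hχ5 η he hs)
  rw [norm_mul, norm_mul, norm_mul, n3, n4] at hprod
  have hprod' : (‖F p (-1) η‖ * ‖F p (-1) (η ^ 2)‖) ^ 2 = 1 := by
    have : ‖(1:ℂ)‖ = 1 := by simp
    rw [this] at hprod
    linear_combination hprod
  have hprod2 : ‖F p (-1) η‖ * ‖F p (-1) (η ^ 2)‖ = 1 :=
    (pow_eq_one_iff_of_nonneg (by positivity) (by norm_num)).mp hprod'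
  have hA := norm_Q_two h2 hχ2 η
  have hB := congrArg norm (F_mul (p := p) η)
  rw [norm_mul, norm_mul] at hB
  have hηp : ‖η ^ p - 1‖ = ‖η - 1‖ := by
    rcases hp5 with h | h
    · rw [← Nat.div_add_mod p 5, h, pow_add, pow_mul, he, one_pow, one_mul, pow_one]
    · rw [← Nat.div_add_mod p 5, h, pow_add, pow_mul, he, one_pow, one_mul, ← hconj]
      rw [← RCLike.norm_conj (η - 1), map_sub, map_one]
  rw [hηp] at hB
  have hpos : 0 < ‖η - 1‖ := norm_pos_iff.mpr (sub_ne_zero.mpr hne)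
  have hB' : ‖F p 1 η‖ * ‖F p (-1) η‖ = 1 := by
    have : ‖η - 1‖ * (‖F p 1 η‖ * ‖F p (-1) η‖) = ‖η - 1‖ * 1 := by linear_combination hB
    exact mul_left_cancel₀ hpos.ne' this
  -- ‖F 1 (-η)‖ = ‖F 1 η‖ ‖F(-1) η‖ ‖F 1 (-η)‖ = ‖F(-1) η‖ ‖F(-1) (η²)‖ = 1
  calc ‖F p 1 (-η)‖ = (‖F p 1 η‖ * ‖F p (-1) η‖) * ‖F p 1 (-η)‖ := by rw [hB', one_mul]
    _ = ‖F p (-1) η‖ * (‖F p 1 η‖ * ‖F p 1 (-η)‖) := by ring
    _ = ‖F p (-1) η‖ * ‖F p (-1) (η ^ 2)‖ := by rw [hA]
    _ = 1 := hprod2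


/-! ### pairing `a` with `-a` -/

/-- Representatives: the `a` with character `1` and `2 * a.val < p`. -/
def H (p : ℕ) [Fact p.Prime] : Finset (ZMod p) := (Q p 1).filter (fun a => 2 * a.val < p)

theorem val_neg' {a : ZMod p} (ha : a ≠ 0) : (-a).val = p - a.val := by
  rw [ZMod.neg_val, if_neg ha]

theorem prod_pair (hp2 : p ≠ 2) (hχ1 : quadraticChar (ZMod p) (-1) = 1) (f : ZMod p → ℂ) :
    ∏ a ∈ Q p 1, f a = ∏ a ∈ H p, (f a * f (-a)) := by
  have hodd : p % 2 = 1 := hp.out.eq_two_or_odd.resolve_left hp2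
  rw [← Finset.prod_filter_mul_prod_filter_not (Q p 1) (fun a => 2 * a.val < p),
    Finset.prod_mul_distrib]
  congr 1
  symm
  refine Finset.prod_nbij' (fun a => -a) (fun a => -a) ?_ ?_ ?_ ?_ ?_
  · intro a ha
    rw [H, mem_filter] at ha
    have ha0 := ne_zero_of_mem one_ne_zero ha.1
    rw [mem_filter, val_neg' ha0]
    refine ⟨?_, by have := ZMod.val_lt a; omega⟩
    rw [mem_Q, neg_eq_neg_one_mul, map_mul, hχ1, one_mul]
    exact mem_Q.mp ha.1
  · intro a ha
    rw [mem_filter] at ha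
    have ha0 := ne_zero_of_mem one_ne_zero ha.1
    rw [H, mem_filter, val_neg' ha0]
    refine ⟨?_, by have := ZMod.val_lt a; omega⟩
    rw [mem_Q, neg_eq_neg_one_mul, map_mul, hχ1, one_mul]
    exact mem_Q.mp ha.1
  · intro a _; exact neg_neg a
  · intro a _; exact neg_neg a
  · intro a _; rfl

theorem card_Q_eq (hp2 : p ≠ 2) (hχ1 : quadraticChar (ZMod p) (-1) = 1) :
    (Q p 1).card = 2 * (H p).card := by
  have h := prod_pair hp2 hχ1 (fun _ => (2 : ℂ))
  rw [Finset.prod_const, Finset.prod_const, ← sq, ← pow_mul] at h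
  exact Nat.pow_right_injective (le_refl 2) (by exact_mod_cast h)

/-- The real factor. -/
noncomputable def r (p : ℕ) [Fact p.Prime] (a : ZMod p) : ℝ :=
  2 * (Real.cos (Real.pi / 5) - Real.cos (2 * Real.pi * a.val / p))

theorem factor (a : ZMod p) (ζ : ℂ) (hζ : ζ = Complex.exp (2 * Real.pi * Complex.I / 10)) :
    (ζ - ZMod.stdAddChar a) * (ζ - ZMod.stdAddChar (-a)) = ζ * (r p a : ℂ) := by
  set z : ℂ := ZMod.stdAddChar a with hz
  have hz1 : z = Complex.exp (((2 * Real.pi * a.val / p : ℝ) : ℂ) * Complex.I) := by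
    rw [hz]
    have := ZMod.stdAddChar_coe (N := p) (a.val : ℤ)
    rw [Int.cast_natCast, ZMod.natCast_zmod_val] at this
    rw [this]
    congr 1
    push_cast
    ring
  have hz2 : ZMod.stdAddChar (-a) = Complex.exp (-(((2 * Real.pi * a.val / p : ℝ) : ℂ) * Complex.I)) := by
    rw [AddChar.map_neg_eq_inv, ← hz, hz1, Complex.exp_neg]
  have hsum : z + ZMod.stdAddChar (-a) = 2 * Complex.cos ((2 * Real.pi * a.val / p : ℝ) : ℂ) := by
    rw [hz1, hz2, Complex.two_cos]
    ring_nf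
  have hmul : z * ZMod.stdAddChar (-a) = 1 := by
    rw [hz, ← AddChar.map_add_eq_mul, add_neg_cancel, AddChar.map_zero_eq_one]
  have hζ2 : ζ ^ 2 + 1 = ζ * (2 * Complex.cos ((Real.pi / 5 : ℝ) : ℂ)) := by
    have e1 : ζ = Complex.exp (((Real.pi / 5 : ℝ) : ℂ) * Complex.I) := by
      rw [hζ]; congr 1; push_cast; ring
    rw [Complex.two_cos, e1, mul_add, ← Complex.exp_add, ← Complex.exp_add, sq, ← Complex.exp_add]
    have : ((Real.pi / 5 : ℝ) : ℂ) * Complex.I + -((Real.pi / 5 : ℝ) : ℂ) * Complex.I = 0 := by ring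
    rw [this, Complex.exp_zero]
  unfold r
  push_cast
  push_cast at hζ2 hsum
  linear_combination hζ2 - ζ * hsum + hmul


theorem prod_sq (hp2 : p ≠ 2) {M : Type*} [CommMonoid M] (f : ZMod p → M) :
    ∏ k ∈ Finset.Icc 1 ((p - 1) / 2), f ((k : ZMod p) ^ 2) = ∏ a ∈ Q p 1, f a := by
  have hodd : p % 2 = 1 := hp.out.eq_two_or_odd.resolve_left hp2
  have hp1 := hp.out.one_lt
  have hne : ∀ k ∈ Finset.Icc 1 ((p - 1) / 2), (k : ZMod p) ≠ 0 := by
    intro k hk
    rw [Finset.mem_Icc] at hk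
    rw [Ne, ZMod.natCast_eq_zero_iff]
    intro h
    have := Nat.le_of_dvd (by omega) h
    omega
  refine Finset.prod_bij (fun k _ => (k : ZMod p) ^ 2) ?_ ?_ ?_ ?_
  · intro k hk
    rw [mem_Q]
    exact quadraticChar_sq_one' (hne k hk)
  · intro k hk l hl h
    rw [Finset.mem_Icc] at hk hl
    rcases sq_eq_sq_iff_eq_or_eq_neg.mp h with h | h
    · have := (ZMod.natCast_eq_natCast_iff' k l p).mp h
      rwa [Nat.mod_eq_of_lt (by omega), Nat.mod_eq_of_lt (by omega)] at this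
    · exfalso
      have h0 : ((k + l : ℕ) : ZMod p) = 0 := by push_cast; rw [h]; ring
      rw [ZMod.natCast_eq_zero_iff] at h0
      have := Nat.le_of_dvd (by omega) h0
      omega
  · intro a ha
    have ha0 := ne_zero_of_mem one_ne_zero ha
    rw [mem_Q, quadraticChar_one_iff_isSquare ha0] at ha
    obtain ⟨b, rfl⟩ := ha
    have hb0 : b ≠ 0 := by rintro rfl; simp at ha0
    refine ⟨b.valMinAbs.natAbs, ?_, ?_⟩
    · rw [Finset.mem_Icc]
      have h1 := ZMod.natAbs_valMinAbs_le b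
      have h2 : b.valMinAbs.natAbs ≠ 0 := by
        rw [Ne, Int.natAbs_eq_zero, ZMod.valMinAbs_eq_zero]; exact hb0
      omega
    · have h1 : ((b.valMinAbs.natAbs : ℕ) : ZMod p) ^ 2 = ((b.valMinAbs : ℤ) : ZMod p) ^ 2 := by
        have h2 := Int.natAbs_sq b.valMinAbs
        have h3 := congrArg (fun z : ℤ => (z : ZMod p)) h2
        push_cast at h3
        simpa using h3
      rw [h1, ZMod.coe_valMinAbs, sq]
  · intro k _
    rfl

theorem card_Q (hp2 : p ≠ 2) : (Q p 1).card = (p - 1) / 2 := by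
  have h := prod_sq (p := p) hp2 (fun _ => Multiplicative.ofAdd (1 : ℕ))
  rw [Finset.prod_const, Finset.prod_const, Nat.card_Icc] at h
  have h2 := congrArg Multiplicative.toAdd h
  simp only [toAdd_pow, toAdd_ofAdd, smul_eq_mul, mul_one] at h2
  omega

theorem r_sign (hp10 : ¬ (10 : ℕ) ∣ p) {a : ZMod p} (ha : 2 * a.val < p) :
    r p a = (if 10 * a.val < p then -1 else 1) * |r p a| := by
  have hp0 : (0 : ℝ) < p := by exact_mod_cast hp.out.pos
  have hπ := Real.pi_pos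
  have h1 : Real.pi / 5 ∈ Set.Icc 0 Real.pi := ⟨by positivity, by linarith⟩
  have h2 : 2 * Real.pi * a.val / p ∈ Set.Icc 0 Real.pi := by
    constructor
    · positivity
    · rw [div_le_iff₀ hp0]
      have : (2 * a.val : ℝ) ≤ p := by exact_mod_cast ha.le
      nlinarith
  have h2' : 2 * Real.pi * a.val / p = Real.pi / 5 * ((10 * a.val : ℝ) / p) := by
    field_simp; ring
  split_ifs with h
  · have h3 : 2 * Real.pi * a.val / p < Real.pi / 5 := by
      rw [h2']
      have : (10 * a.val : ℝ) / p < 1 := by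
        rw [div_lt_one hp0]; exact_mod_cast h
      nlinarith
    have h4 := Real.strictAntiOn_cos h2 h1 h3
    have h5 : r p a < 0 := by unfold r; linarith
    rw [abs_of_neg h5]; ring
  · have h3 : Real.pi / 5 < 2 * Real.pi * a.val / p := by
      rw [h2']
      have h6 : p < 10 * a.val := by
        rcases lt_or_eq_of_le (not_lt.mp h) with h | h
        · exact h
        · exact absurd ⟨a.val, h⟩ hp10
      have : 1 < (10 * a.val : ℝ) / p := by
        rw [one_lt_div hp0]; exact_mod_cast h6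
      nlinarith
    have h4 := Real.strictAntiOn_cos h1 h2 h3
    have h5 : 0 < r p a := by unfold r; linarith
    rw [abs_of_pos h5]; ring

theorem prod_r_sign (hp10 : ¬ (10 : ℕ) ∣ p) :
    ∏ a ∈ H p, r p a = (-1) ^ ((H p).filter (fun a => 10 * a.val < p)).card * |∏ a ∈ H p, r p a| := by
  rw [Finset.abs_prod]
  have h1 : ∏ a ∈ H p, r p a = ∏ a ∈ H p, ((if 10 * a.val < p then -1 else 1) * |r p a|) := by
    apply Finset.prod_congr rfl
    intro a ha
    exact r_sign hp10 (mem_filter.mp ha).2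
  rw [h1, Finset.prod_mul_distrib, Finset.prod_ite, Finset.prod_const, Finset.prod_const_one, mul_one]

/-- counting quadratic residues below `p/10` -/
theorem card_small (hp2 : p ≠ 2) :
    ((H p).filter (fun a => 10 * a.val < p)).card =
      ((Finset.Icc 1 (p / 10)).filter (fun k : ℕ => legendreSym p k = 1)).card := by
  have hp1 := hp.out.one_lt
  symm
  refine Finset.card_bij (fun k _ => (k : ZMod p)) ?_ ?_ ?_
  · intro k hk
    rw [mem_filter, Finset.mem_Icc] at hk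
    have hval : (k : ZMod p).val = k := ZMod.val_cast_of_lt (by omega)
    rw [mem_filter, H, mem_filter, mem_Q, hval]
    have hodd : p % 2 = 1 := hp.out.eq_two_or_odd.resolve_left hp2
    refine ⟨⟨?_, by omega⟩, ?_⟩
    · have := hk.2
      unfold legendreSym at this
      simpa using this
    · have h10 : 10 * (p / 10) ≤ p := Nat.mul_div_le p 10
      rcases lt_or_eq_of_le h10 with h | h
      · omega
      · exfalso; omega
  · intro k hk l hl h
    rw [mem_filter, Finset.mem_Icc] at hk hl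
    have := (ZMod.natCast_eq_natCast_iff' k l p).mp h
    rwa [Nat.mod_eq_of_lt (by omega), Nat.mod_eq_of_lt (by omega)] at this
  · intro a ha
    rw [mem_filter, H, mem_filter, mem_Q] at ha
    refine ⟨a.val, ?_, by simp⟩
    rw [mem_filter, Finset.mem_Icc]
    have ha0 : a ≠ 0 := by
      rintro rfl
      have := ha.1.1
      simp at this
    have hv0 : a.val ≠ 0 := by rw [Ne, ZMod.val_eq_zero]; exact ha0
    refine ⟨⟨by omega, ?_⟩, ?_⟩
    · omega
    · unfold legendreSym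
      simpa using ha.1.1


theorem value (hp8 : p % 8 = 5) (hp5 : p % 5 = 1 ∨ p % 5 = 4)
    (hχ2 : quadraticChar (ZMod p) 2 = -1) (hχ5 : quadraticChar (ZMod p) 5 = 1)
    (hχ1 : quadraticChar (ZMod p) (-1) = 1) (ζ : ℂ)
    (hζ : ζ = Complex.exp (2 * Real.pi * Complex.I / 10)) :
    F p 1 ζ = ζ ^ ((p - 1) / 4) *
      (-1) ^ ((Finset.Icc 1 (p / 10)).filter (fun k : ℕ => legendreSym p k = 1)).card := by
  have hp2 : p ≠ 2 := by omega
  have hp10 : ¬ (10 : ℕ) ∣ p := by omega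
  have h2 : (2 : ZMod p) ≠ 0 := by
    intro h; rw [h] at hχ2; simp at hχ2
  have h5 : (5 : ZMod p) ≠ 0 := by
    intro h; rw [h] at hχ5; simp at hχ5
  have hprim : IsPrimitiveRoot ζ 10 := by
    rw [hζ]; exact_mod_cast Complex.isPrimitiveRoot_exp 10 (by norm_num)
  have hζ5 : ζ ^ 5 = -1 := by
    have h1 : (ζ ^ 5 - 1) * (ζ ^ 5 + 1) = 0 := by
      have := hprim.pow_eq_one
      linear_combination this
    rcases mul_eq_zero.mp h1 with h | h
    · exfalso
      have := hprim.pow_ne_one_of_pos_of_lt (l := 5) (by norm_num) (by norm_num)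
      exact this (sub_eq_zero.mp h)
    · exact eq_neg_of_add_eq_zero_left h
  have hζn : ‖ζ‖ = 1 := by
    have : ‖ζ‖ ^ 10 = 1 := by rw [← norm_pow, hprim.pow_eq_one]; simp
    exact (pow_eq_one_iff_of_nonneg (norm_nonneg _) (by norm_num)).mp this
  have hnorm : ‖F p 1 ζ‖ = 1 := by
    have := norm_F_neg hp5 h2 h5 hχ2 hχ5 hχ1 (-ζ) (by
      have : (-ζ) ^ 5 = - ζ ^ 5 := by ring
      rw [this, hζ5, neg_neg]) (by
      intro h
      have h1 : ζ = -1 := by rw [← h, neg_neg]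
      have := hprim.pow_ne_one_of_pos_of_lt (l := 2) (by norm_num) (by norm_num)
      apply this
      rw [h1]; norm_num)
    rwa [neg_neg] at this
  have hF : F p 1 ζ = ζ ^ (H p).card * ((∏ a ∈ H p, r p a : ℝ) : ℂ) := by
    unfold F
    rw [prod_pair hp2 hχ1]
    rw [Finset.prod_congr rfl (fun a _ => factor a ζ hζ), Finset.prod_mul_distrib,
      Finset.prod_const]
    push_cast
    rfl
  have hH : (H p).card = (p - 1) / 4 := by
    have h1 := card_Q_eq hp2 hχ1
    rw [card_Q hp2] at h1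
    omega
  rw [hF, norm_mul, norm_pow, hζn, one_pow, one_mul, Complex.norm_real, Real.norm_eq_abs] at hnorm
  have hs := prod_r_sign (p := p) hp10
  rw [hnorm, mul_one, card_small hp2] at hs
  rw [hF, hH, hs]
  push_cast
  rfl

theorem count_neg (hM : legendreSym p ((p / 10 + 1 : ℕ) : ℤ) = -1)
    (heven : Even (p / 10)) :
    (-1 : ℂ) ^ ((Finset.Icc 1 (p / 10 + 1)).filter (fun k : ℕ => legendreSym p k = -1)).card =
      - (-1) ^ ((Finset.Icc 1 (p / 10)).filter (fun k : ℕ => legendreSym p k = 1)).card := by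
  have hp1 := hp.out.one_lt
  have h1 : (Finset.Icc 1 (p / 10 + 1)).filter (fun k : ℕ => legendreSym p k = -1) =
      insert (p / 10 + 1) ((Finset.Icc 1 (p / 10)).filter (fun k : ℕ => legendreSym p k = -1)) := by
    ext k
    simp only [mem_filter, Finset.mem_Icc, mem_insert]
    constructor
    · rintro ⟨⟨h1, h2⟩, h3⟩
      by_cases hk : k = p / 10 + 1
      · exact Or.inl hk
      · exact Or.inr ⟨⟨h1, by omega⟩, h3⟩
    · rintro (h | ⟨⟨h1, h2⟩, h3⟩)
      · subst h; exact ⟨⟨by omega, le_rfl⟩, hM⟩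
      · exact ⟨⟨h1, by omega⟩, h3⟩
  rw [h1, Finset.card_insert_of_notMem (by simp)]
  have h2 : ((Finset.Icc 1 (p / 10)).filter (fun k : ℕ => legendreSym p k = 1)).card +
      ((Finset.Icc 1 (p / 10)).filter (fun k : ℕ => legendreSym p k = -1)).card = p / 10 := by
    have h3 : (Finset.Icc 1 (p / 10)).filter (fun k : ℕ => legendreSym p k = -1) =
        (Finset.Icc 1 (p / 10)).filter (fun k : ℕ => ¬ legendreSym p k = 1) := by
      ext k
      simp only [mem_filter, Finset.mem_Icc]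
      constructor
      · rintro ⟨h, h'⟩; exact ⟨h, by rw [h']; norm_num⟩
      · rintro ⟨h, h'⟩
        refine ⟨h, ?_⟩
        have hk0 : ((k : ℤ) : ZMod p) ≠ 0 := by
          rw [Int.cast_natCast, Ne, ZMod.natCast_eq_zero_iff]
          intro hd
          have := Nat.le_of_dvd (by omega) hd
          omega
        rcases legendreSym.eq_one_or_neg_one p hk0 with h4 | h4
        · exact absurd h4 h'
        · exact h4
    rw [h3, Finset.card_filter_add_card_filter_not]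
    simp
  set A := ((Finset.Icc 1 (p / 10)).filter (fun k : ℕ => legendreSym p k = 1)).card
  set B := ((Finset.Icc 1 (p / 10)).filter (fun k : ℕ => legendreSym p k = -1)).card
  have h3 : (-1 : ℂ) ^ (A + B) = 1 := by rw [h2]; exact heven.neg_one_pow
  have h4 : (-1 : ℂ) ^ A * (-1) ^ A = 1 := by rw [← pow_add, ← two_mul, pow_mul]; norm_num
  rw [pow_succ]
  rw [pow_add] at h3
  have h5 : (-1 : ℂ) ^ B = (-1) ^ A := by
    calc (-1 : ℂ) ^ B = ((-1) ^ A * (-1) ^ A) * (-1) ^ B := by rw [h4, one_mul]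
      _ = (-1) ^ A * ((-1) ^ A * (-1) ^ B) := by ring
      _ = (-1) ^ A := by rw [h3, mul_one]
  rw [h5]; ring

/-- Galois conjugation over `ℚ(e(1/p))`. -/
theorem galois (hcop : Nat.Coprime 10 p) (ε : ℤ) (d m : ℕ) (hm : Nat.Coprime m 10) (ζ : ℂ)
    (hζ : ζ = Complex.exp (2 * Real.pi * Complex.I / 10)) (h : F p 1 ζ = ε * ζ ^ d) :
    F p 1 (ζ ^ m) = ε * (ζ ^ m) ^ d := by
  have hp0 := hp.out.pos
  set ξ : ℂ := Complex.exp (2 * Real.pi * Complex.I / ((10 * p : ℕ) : ℂ)) with hξ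
  have hprim : IsPrimitiveRoot ξ (10 * p) := Complex.isPrimitiveRoot_exp (10 * p) (by positivity)
  have hpC : (p : ℂ) ≠ 0 := by exact_mod_cast hp0.ne'
  have hξp : ξ ^ p = ζ := by
    rw [hξ, ← Complex.exp_nat_mul, hζ]
    congr 1
    push_cast
    field_simp
  have hξ10 : ∀ a : ZMod p, ξ ^ (10 * a.val) = ZMod.stdAddChar a := by
    intro a
    have := ZMod.stdAddChar_coe (N := p) (a.val : ℤ)
    rw [Int.cast_natCast, ZMod.natCast_zmod_val] at this
    rw [this, hξ, ← Complex.exp_nat_mul]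
    congr 1
    push_cast
    field_simp
  obtain ⟨t, ht10, htp⟩ := Nat.chineseRemainder hcop m 1
  have htcop : Nat.Coprime t (10 * p) := by
    apply Nat.Coprime.mul_right
    · rw [Nat.coprime_iff_gcd_eq_one, Nat.ModEq.gcd_eq ht10]; exact hm
    · rw [Nat.coprime_iff_gcd_eq_one, Nat.ModEq.gcd_eq htp]; simp
  let P : Polynomial ℚ := (∏ a ∈ Q p 1, (Polynomial.X ^ p - Polynomial.X ^ (10 * a.val))) -
    Polynomial.C (ε : ℚ) * Polynomial.X ^ (p * d)
  have hP : ∀ z : ℂ, Polynomial.aeval z P =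
      (∏ a ∈ Q p 1, (z ^ p - z ^ (10 * a.val))) - ε * z ^ (p * d) := by
    intro z
    simp [P, map_prod]
  have hroot : Polynomial.aeval ξ P = 0 := by
    rw [hP, sub_eq_zero, pow_mul, hξp, ← h]
    unfold F
    apply Finset.prod_congr rfl
    intro a _
    rw [hξ10]
  have hdvd : Polynomial.cyclotomic (10 * p) ℚ ∣ P := by
    rw [Polynomial.cyclotomic_eq_minpoly_rat hprim (by positivity)]
    exact minpoly.dvd ℚ ξ hroot
  have hprim' : IsPrimitiveRoot (ξ ^ t) (10 * p) := hprim.pow_of_coprime t htcop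
  have hroot' : Polynomial.aeval (ξ ^ t) P = 0 := by
    obtain ⟨G, hG⟩ := hdvd
    rw [hG, map_mul]
    have : Polynomial.aeval (ξ ^ t) (Polynomial.cyclotomic (10 * p) ℚ) = 0 := by
      rw [Polynomial.aeval_def, Polynomial.eval₂_eq_eval_map, Polynomial.map_cyclotomic]
      exact hprim'.isRoot_cyclotomic (by positivity)
    rw [this, zero_mul]
  have hζ10 : ζ ^ 10 = 1 := by
    rw [← hξp, ← pow_mul, mul_comm]; exact hprim.pow_eq_one
  have hζt : ζ ^ t = ζ ^ m := by
    rw [pow_eq_pow_mod t hζ10, pow_eq_pow_mod m hζ10]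
    rw [ht10]
  have h1 : (ξ ^ t) ^ p = ζ ^ m := by
    rw [← pow_mul, mul_comm, pow_mul, hξp, hζt]
  have h2 : ∀ a : ZMod p, (ξ ^ t) ^ (10 * a.val) = ZMod.stdAddChar a := by
    intro a
    rw [← pow_mul, mul_comm, pow_mul, hξ10, ← e_nsmul]
    have : (t : ZMod p) = 1 := by
      have := (ZMod.natCast_eq_natCast_iff t 1 p).mpr htp
      simpa using this
    rw [this, one_mul]
  rw [hP, sub_eq_zero, pow_mul, h1] at hroot'
  rw [← hroot']
  unfold F
  apply Finset.prod_congr rfl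
  intro a _
  rw [h2]


theorem chars (hp8 : p % 8 = 5) (hp5 : p % 5 = 1 ∨ p % 5 = 4) :
    quadraticChar (ZMod p) 2 = -1 ∧ quadraticChar (ZMod p) 5 = 1 ∧
      quadraticChar (ZMod p) (-1) = 1 := by
  have hp2 : p ≠ 2 := by omega
  have : Fact (Nat.Prime 5) := ⟨by norm_num⟩
  refine ⟨?_, ?_, ?_⟩
  · rw [quadraticChar_neg_one_iff_not_isSquare, ZMod.exists_sq_eq_two_iff hp2]
    omega
  · have h50 : (5 : ZMod p) ≠ 0 := by
      intro h
      have h' : ((5 : ℕ) : ZMod p) = 0 := by exact_mod_cast h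
      rw [ZMod.natCast_eq_zero_iff] at h'
      have := Nat.le_of_dvd (by norm_num) h'
      interval_cases p <;> omega
    rw [quadraticChar_one_iff_isSquare h50]
    have h := ZMod.exists_sq_eq_prime_iff_of_mod_four_eq_one (p := p) (q := 5) (by omega) (by norm_num)
    have h' : IsSquare (5 : ZMod p) ↔ IsSquare (p : ZMod 5) := by exact_mod_cast h
    rw [h']
    rcases hp5 with h5 | h5
    · have : (p : ZMod 5) = 1 := by
        have : (p : ZMod 5) = ((1 : ℕ) : ZMod 5) := by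
          rw [ZMod.natCast_eq_natCast_iff']; exact h5
        rw [this]; simp
      rw [this]; exact ⟨1, by norm_num⟩
    · have : (p : ZMod 5) = 4 := by
        have : (p : ZMod 5) = ((4 : ℕ) : ZMod 5) := by
          rw [ZMod.natCast_eq_natCast_iff']; exact h5
        rw [this]; rfl
      rw [this]; exact ⟨2, by norm_num⟩
  · rw [quadraticChar_one_iff_isSquare (by simp), ZMod.exists_sq_eq_neg_one_iff]
    omega

theorem leg_small (hχ2 : quadraticChar (ZMod p) 2 = -1) (hχ5 : quadraticChar (ZMod p) 5 = 1)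
    (h9 : ∃ s : ℕ, s ≠ 0 ∧ s < p ∧ 10 * (p / 10 + 1) = p + s ^ 2) :
    legendreSym p ((p / 10 + 1 : ℕ) : ℤ) = -1 := by
  obtain ⟨s, hs0, hsp, hs⟩ := h9
  have hc : (10 : ZMod p) * ((p / 10 + 1 : ℕ) : ZMod p) = (s : ZMod p) ^ 2 := by
    have := congrArg (fun n : ℕ => (n : ZMod p)) hs
    push_cast at this
    push_cast
    simpa using this
  have hs1 : (s : ZMod p) ≠ 0 := by
    rw [Ne, ZMod.natCast_eq_zero_iff]
    intro h
    have := Nat.le_of_dvd (by omega) h
    omega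
  have h1 : quadraticChar (ZMod p) (10 * ((p / 10 + 1 : ℕ) : ZMod p)) = 1 := by
    rw [hc]; exact quadraticChar_sq_one' hs1
  have h10 : quadraticChar (ZMod p) 10 = -1 := by
    have : (10 : ZMod p) = 2 * 5 := by norm_num
    rw [this, map_mul, hχ2, hχ5]; norm_num
  rw [map_mul, h10] at h1
  unfold legendreSym
  rw [Int.cast_natCast]
  linarith

/-- For every prime `p ≡ 21 (mod 40)` and every primitive tenth root of unity `ζ`,
`S_p(ζ) = (-1)^{n_p((p+9)/10)}`, and for every prime `p ≡ 29 (mod 40)`,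
`S_p(ζ) = (-1)^{n_p((p+1)/10)} ζ ^ 2`. Here `S_p(ζ) = ∏_{k=1}^{(p-1)/2} (ζ - e^{2 π i k² / p})` and
`n_p(N)` is the number of `1 ≤ k ≤ N` with Legendre symbol `(k/p) = -1`. -/
theorem result (p : ℕ) [Fact p.Prime] (ζ : ℂ) (hζ : IsPrimitiveRoot ζ 10) :
    (p % 40 = 21 →
      ∏ k ∈ Finset.Icc 1 ((p - 1) / 2),
          (ζ - Complex.exp (2 * Real.pi * Complex.I * (k : ℂ) ^ 2 / p)) =
        (-1) ^ ((Finset.Icc 1 ((p + 9) / 10)).filter (fun k : ℕ => legendreSym p k = -1)).card) ∧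
    (p % 40 = 29 →
      ∏ k ∈ Finset.Icc 1 ((p - 1) / 2),
          (ζ - Complex.exp (2 * Real.pi * Complex.I * (k : ℂ) ^ 2 / p)) =
        (-1) ^ ((Finset.Icc 1 ((p + 1) / 10)).filter (fun k : ℕ => legendreSym p k = -1)).card
          * ζ ^ 2) := by
  have hprod : p ≠ 2 → ∏ k ∈ Finset.Icc 1 ((p - 1) / 2),
      (ζ - Complex.exp (2 * Real.pi * Complex.I * (k : ℂ) ^ 2 / p)) = F p 1 ζ := by
    intro hp2
    unfold F
    rw [← prod_sq hp2]
    apply Finset.prod_congr rfl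
    intro k _
    congr 1
    have := ZMod.stdAddChar_coe (N := p) ((k : ℤ) ^ 2)
    push_cast at this
    rw [this]
  set ζ₀ : ℂ := Complex.exp (2 * Real.pi * Complex.I / 10) with hζ₀
  have hprim : IsPrimitiveRoot ζ₀ 10 := by
    rw [hζ₀]; exact_mod_cast Complex.isPrimitiveRoot_exp 10 (by norm_num)
  obtain ⟨m, -, hm, hmζ⟩ := (hprim.isPrimitiveRoot_iff).mp hζ
  have hζ5 : ζ₀ ^ 5 = -1 := by
    have h1 : (ζ₀ ^ 5 - 1) * (ζ₀ ^ 5 + 1) = 0 := by
      have := hprim.pow_eq_one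
      linear_combination this
    rcases mul_eq_zero.mp h1 with h | h
    · exfalso
      have := hprim.pow_ne_one_of_pos_of_lt (l := 5) (by norm_num) (by norm_num)
      exact this (sub_eq_zero.mp h)
    · exact eq_neg_of_add_eq_zero_left h
  constructor
  · intro h40
    have hp2 : p ≠ 2 := by omega
    obtain ⟨hχ2, hχ5, hχ1⟩ := chars (p := p) (by omega) (by omega)
    have hval := value (p := p) (by omega) (by omega) hχ2 hχ5 hχ1 ζ₀ hζ₀
    have hM : legendreSym p ((p / 10 + 1 : ℕ) : ℤ) = -1 :=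
      leg_small hχ2 hχ5 ⟨3, by norm_num, by omega, by omega⟩
    have hev : Even (p / 10) := ⟨p / 20, by omega⟩
    have hcount := count_neg (p := p) hM hev
    have hN : (p + 9) / 10 = p / 10 + 1 := by omega
    rw [hprod hp2, hN]
    have hexp : ζ₀ ^ ((p - 1) / 4) = -1 := by
      have h1 : (p - 1) / 4 = 5 * (2 * (p / 40) + 1) := by omega
      rw [h1, pow_mul, hζ5]
      exact Odd.neg_one_pow ⟨p / 40, by ring⟩
    rw [hexp] at hval
    set A := ((Finset.Icc 1 (p / 10)).filter (fun k : ℕ => legendreSym p k = 1)).card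
    set B := ((Finset.Icc 1 (p / 10 + 1)).filter (fun k : ℕ => legendreSym p k = -1)).card
    have h1 : F p 1 ζ₀ = (((-1 : ℤ) ^ B : ℤ) : ℂ) * ζ₀ ^ 0 := by
      rw [hval]; push_cast; rw [hcount]; ring
    have hcop : Nat.Coprime 10 p := by
      have : Nat.Coprime p 10 := by
        rw [Nat.coprime_iff_gcd_eq_one]
        have h10 : p % 10 = 1 := by omega
        have : p ≡ 1 [MOD 10] := h10
        rw [Nat.ModEq.gcd_eq this]; simp
      exact this.symm
    have h2 := galois (p := p) hcop _ 0 m hm ζ₀ hζ₀ h1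
    rw [hmζ] at h2
    rw [h2]; push_cast; ring
  · intro h40
    have hp2 : p ≠ 2 := by omega
    obtain ⟨hχ2, hχ5, hχ1⟩ := chars (p := p) (by omega) (by omega)
    have hval := value (p := p) (by omega) (by omega) hχ2 hχ5 hχ1 ζ₀ hζ₀
    have hM : legendreSym p ((p / 10 + 1 : ℕ) : ℤ) = -1 :=
      leg_small hχ2 hχ5 ⟨1, by norm_num, by omega, by omega⟩
    have hev : Even (p / 10) := ⟨p / 20, by omega⟩
    have hcount := count_neg (p := p) hM hev
    have hN : (p + 1) / 10 = p / 10 + 1 := by omega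
    rw [hprod hp2, hN]
    have hexp : ζ₀ ^ ((p - 1) / 4) = - ζ₀ ^ 2 := by
      have h1 : (p - 1) / 4 = 5 * (2 * (p / 40) + 1) + 2 := by omega
      rw [h1, pow_add, pow_mul, hζ5]
      have : (-1 : ℂ) ^ (2 * (p / 40) + 1) = -1 := Odd.neg_one_pow ⟨p / 40, by ring⟩
      rw [this]; ring
    rw [hexp] at hval
    set A := ((Finset.Icc 1 (p / 10)).filter (fun k : ℕ => legendreSym p k = 1)).card
    set B := ((Finset.Icc 1 (p / 10 + 1)).filter (fun k : ℕ => legendreSym p k = -1)).card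
    have h1 : F p 1 ζ₀ = (((-1 : ℤ) ^ B : ℤ) : ℂ) * ζ₀ ^ 2 := by
      rw [hval]; push_cast; rw [hcount]; ring
    have hcop : Nat.Coprime 10 p := by
      have : Nat.Coprime p 10 := by
        rw [Nat.coprime_iff_gcd_eq_one]
        have h10 : p % 10 = 9 := by omega
        have : p ≡ 9 [MOD 10] := h10
        rw [Nat.ModEq.gcd_eq this]; norm_num
      exact this.symm
    have h2 := galois (p := p) hcop _ 2 m hm ζ₀ hζ₀ h1
    rw [hmζ] at h2
    rw [h2]; push_cast; ring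

end Pool.Agent.Results.MP_10d431_nt.TenthRoots
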